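import Mathlib
import Pool.Agent.WAP.StmtsB

/-!
# WAP, row BFI (helper95): the final form, density in the product over all places
-/

set_option autoImplicit false

namespace Pool.Agent.WAP.H95

open Pool.Agent.WAP Classical IsDedekindDomain

theorem onU_iff {F : Type} [Field F] (z : F × F × F) : OnU z ↔ z ∈ XU F := by
  unfold OnU XU cub
  rfl

theorem bfi (hblo : BloStmt) (hbwa : BwaStmt) (hfin : FinStmt) : BfiStmt := by
  intro K _ _ _ σ
  -- the family of the finite places
  have hb := fun v : HeightOneSpectrum GaussianInt => hblo K v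
  choose ϖ hϖ hloc using hb
  have hfam : IsFam (fun v : HeightOneSpectrum GaussianInt => v.adicCompletion K) ϖ := by
    refine ⟨hloc, fun v w hvw hass => hvw ?_⟩
    apply HeightOneSpectrum.ext
    rw [hϖ v, hϖ w]
    exact Ideal.span_singleton_eq_span_singleton.2 hass
  -- the complex place
  let _ : Algebra GaussianInt ℂ := (σ.comp (algebraMap GaussianInt K)).toAlgebra
  have hcx : IsCx ℂ := ⟨RingEquiv.refl ℂ, fun _ => rfl⟩
  let σv : ∀ v : HeightOneSpectrum GaussianInt, K →ₐ[GaussianInt] v.adicCompletion K :=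
    fun v => { algebraMap K (v.adicCompletion K) with
      commutes' := fun _ => rfl }
  let σC : K →ₐ[GaussianInt] ℂ := { σ with
      commutes' := fun _ => rfl }
  -- density
  rw [DenseRange, dense_iff_inter_open]
  rintro U hU ⟨⟨zf, zc⟩, hz⟩
  obtain ⟨A, B, hA, hB, hzA, hzB, hAB⟩ := isOpen_prod_iff.1 hU zf zc hz
  obtain ⟨S, V, hV, hVA⟩ := isOpen_pi_iff.1 hA zf hzA
  -- open sets upstairs
  have hV' : ∀ v : HeightOneSpectrum GaussianInt, ∃ O : Set (v.adicCompletion K × v.adicCompletion K ×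
      v.adicCompletion K), v ∈ S → IsOpen O ∧ Subtype.val ⁻¹' O = V v := by
    intro v
    by_cases hv : v ∈ S
    · obtain ⟨O, hO, hOV⟩ := isOpen_induced_iff.1 (hV v hv).1
      exact ⟨O, fun _ => ⟨hO, hOV⟩⟩
    · exact ⟨∅, fun h => absurd h hv⟩
  choose O hO using hV'
  obtain ⟨OC, hOC, hOCB⟩ := isOpen_induced_iff.1 hB
  obtain ⟨z, hzU, hzS, hzC⟩ := hfin (HeightOneSpectrum GaussianInt)
    (fun v => v.adicCompletion K) ϖ ℂ K σv σC hfam hcx S
    (fun T TC hT hTCo hTCn => hbwa K (HeightOneSpectrum GaussianInt)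
      (fun v => v.adicCompletion K) ϖ ℂ σv σC S (fun v _ => hloc v)
      (fun v _ w _ hvw => hfam.2 v w hvw) hcx T TC hT hTCo hTCn)
    O OC
    (fun v hv => ⟨(hO v hv).1, (zf v).1, by
      have h1 : zf v ∈ Subtype.val ⁻¹' O v := by
        rw [(hO v hv).2]
        exact (hV v hv).2
      exact h1, (onU_iff _).2 (zf v).2⟩)
    hOC ⟨zc.1, by
      have h1 : zc ∈ Subtype.val ⁻¹' OC := by
        rw [hOCB]
        exact hzB
      exact h1, (onU_iff _).2 zc.2⟩
  refine ⟨_, hAB ?_, ⟨⟨z, (onU_iff _).1 hzU⟩, rfl⟩⟩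
  refine Set.mk_mem_prod (hVA ?_) ?_
  · intro v hv
    rw [← (hO v hv).2]
    exact hzS v hv
  · rw [← hOCB]
    exact hzC

end Pool.Agent.WAP.H95
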