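import Mathlib
import Pool.Agent.WAP.StmtsB

/-!
# WAP, row BFS (helper95): the final form for all smooth points of the affine surface
-/

set_option autoImplicit false

namespace Pool.Agent.WAP.H95

open Pool.Agent.WAP Classical IsDedekindDomain

/-- The smooth `F`-points of the affine surface `y ^ 2 = (x ^ 3 - x) * (t ^ 3 - t)`. -/
def XS (F : Type) [Field F] : Set (F × F × F) :=
  {z | z.2.2 ^ 2 = (z.1 ^ 3 - z.1) * (z.2.1 ^ 3 - z.2.1) ∧
    (z.1 ^ 3 - z.1 ≠ 0 ∨ z.2.1 ^ 3 - z.2.1 ≠ 0)}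

/-- base change of points -/
def XS.map {K F : Type} [Field K] [Field F] (σ : K →+* F) (z : XS K) : XS F :=
  ⟨(σ z.1.1, σ z.1.2.1, σ z.1.2.2), by
    have e : ∀ x : K, σ x ^ 3 - σ x = σ (x ^ 3 - x) := by
      intro x
      rw [map_sub, map_pow]
    refine ⟨?_, ?_⟩
    · have h := congrArg σ z.2.1
      simpa only [map_mul, map_pow, map_sub] using h
    · rcases z.2.2 with h | h
      · left
        show σ z.1.1 ^ 3 - σ z.1.1 ≠ 0
        rw [e]
        exact (map_ne_zero σ).2 h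
      · right
        show σ z.1.2.1 ^ 3 - σ z.1.2.1 ≠ 0
        rw [e]
        exact (map_ne_zero σ).2 h⟩

/-- **BFS** (uses BLO, BWA, FIN). -/
def BfsStmt : Prop :=
  ∀ (K : Type) [Field K] [Algebra GaussianInt K] [IsFractionRing GaussianInt K] (σ : K →+* ℂ),
    DenseRange (fun z : XS K =>
      (((fun v : HeightOneSpectrum GaussianInt =>
        XS.map (algebraMap K (v.adicCompletion K)) z), XS.map σ z) :
        (∀ v : HeightOneSpectrum GaussianInt, XS (v.adicCompletion K)) × XS ℂ))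

/-- one-sided version: `f(t) ≠ 0` -/
theorem near_one {F : Type} [NormedField F] (h2 : (2 : F) ≠ 0) (δ : ℝ) (hδ : 0 < δ)
    (hsq : ∀ u : F, ‖u - 1‖ < δ → ∃ r : F, r ^ 2 = u)
    (hs : ∀ ε : ℝ, 0 < ε → ∃ s : F, s ≠ 0 ∧ ‖s‖ < ε)
    (x t : F) (hx : x ^ 3 - x = 0) (ht : t ^ 3 - t ≠ 0) (ε : ℝ) (hε : 0 < ε) :
    ∃ x' y' : F, ‖x' - x‖ < ε ∧ ‖y'‖ < ε ∧ y' ≠ 0 ∧
      y' ^ 2 = (x' ^ 3 - x') * (t ^ 3 - t) := by
  set b := t ^ 3 - t with hb
  -- the derivative
  have hd : 3 * x ^ 2 - 1 ≠ 0 := by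
    have h0 : x * (x ^ 2 - 1) = 0 := by linear_combination hx
    rcases mul_eq_zero.1 h0 with h | h
    · rw [h]
      intro h3
      apply one_ne_zero (α := F)
      linear_combination -h3
    · intro h3
      apply h2
      linear_combination h3 - 3 * h
  set e := 3 * x ^ 2 - 1 with he
  -- estimates by continuity at s = 0
  have hc1 : Filter.Tendsto (fun s : F => s ^ 2 * e * b) (nhds 0) (nhds 0) := by
    have h : Continuous fun s : F => s ^ 2 * e * b := by fun_prop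
    have := h.tendsto 0
    simpa using this
  have hc2 : Filter.Tendsto (fun s : F => 1 + (3 * x * (s ^ 2 * e * b) +
      (s ^ 2 * e * b) ^ 2) / e) (nhds 0) (nhds 1) := by
    have h : Continuous fun s : F => 1 + (3 * x * (s ^ 2 * e * b) + (s ^ 2 * e * b) ^ 2) / e := by
      fun_prop
    have := h.tendsto 0
    simpa using this
  have hc3 : Filter.Tendsto (fun s : F => s * b * e) (nhds 0) (nhds 0) := by
    have h : Continuous fun s : F => s * b * e := by fun_prop
    have := h.tendsto 0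
    simpa using this
  have he1 := (Metric.tendsto_nhds_nhds.1 hc1) ε hε
  have he2 := (Metric.tendsto_nhds_nhds.1 hc2) (min δ 1) (lt_min hδ one_pos)
  have he3 := (Metric.tendsto_nhds_nhds.1 hc3) (ε / 2) (by positivity)
  obtain ⟨d1, hd1, hd1'⟩ := he1
  obtain ⟨d2, hd2, hd2'⟩ := he2
  obtain ⟨d3, hd3, hd3'⟩ := he3
  obtain ⟨s, hs0, hs1⟩ := hs (min d1 (min d2 d3)) (lt_min hd1 (lt_min hd2 hd3))
  have hs2 : dist s 0 < d1 := by
    rw [dist_zero_right]
    exact hs1.trans_le (min_le_left _ _)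
  have hs3 : dist s 0 < d2 := by
    rw [dist_zero_right]
    exact hs1.trans_le ((min_le_right _ _).trans (min_le_left _ _))
  have hs4 : dist s 0 < d3 := by
    rw [dist_zero_right]
    exact hs1.trans_le ((min_le_right _ _).trans (min_le_right _ _))
  have h1 := hd1' hs2
  have h2' := hd2' hs3
  have h3 := hd3' hs4
  rw [dist_zero_right] at h1 h3
  rw [dist_eq_norm] at h2'
  obtain ⟨r, hr⟩ := hsq _ (h2'.trans_le (min_le_left _ _))
  set h := s ^ 2 * e * b with hh
  set u := 1 + (3 * x * h + h ^ 2) / e with hu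
  have hu1 : ‖u - 1‖ < 1 := h2'.trans_le (min_le_right _ _)
  have hu0 : u ≠ 0 := by
    intro h0
    rw [h0, zero_sub, norm_neg, norm_one] at hu1
    exact lt_irrefl _ hu1
  have hr0 : r ≠ 0 := by
    rintro rfl
    apply hu0
    rw [← hr]
    simp
  have hun : ‖u‖ ≤ 2 := by
    have : ‖u‖ ≤ ‖u - 1‖ + ‖(1 : F)‖ := by
      have e1 : u = (u - 1) + 1 := by ring
      conv_lhs => rw [e1]
      exact norm_add_le _ _
    rw [norm_one] at this
    linarith
  have hrn : ‖r‖ ≤ 2 := by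
    have h4 : ‖r‖ ^ 2 ≤ 2 := by
      rw [← norm_pow, hr]
      exact hun
    nlinarith [norm_nonneg r]
  refine ⟨x + h, s * b * e * r, ?_, ?_, ?_, ?_⟩
  · rw [add_sub_cancel_left]
    exact h1
  · rw [norm_mul]
    calc ‖s * b * e‖ * ‖r‖ ≤ ‖s * b * e‖ * 2 := mul_le_mul_of_nonneg_left hrn (norm_nonneg _)
      _ < ε / 2 * 2 := mul_lt_mul_of_pos_right h3 two_pos
      _ = ε := by ring
  · exact mul_ne_zero (mul_ne_zero (mul_ne_zero hs0 ht) hd) hr0
  · have e1 : (x + h) ^ 3 - (x + h) = h * (e * u) := by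
      rw [hu]
      have e2 : e * (1 + (3 * x * h + h ^ 2) / e) = e + (3 * x * h + h ^ 2) := by
        field_simp
      rw [e2, he]
      linear_combination hx
    rw [e1, mul_pow, hr, hh]
    ring

theorem near_U {F : Type} [NormedField F] (h2 : (2 : F) ≠ 0) (δ : ℝ) (hδ : 0 < δ)
    (hsq : ∀ u : F, ‖u - 1‖ < δ → ∃ r : F, r ^ 2 = u)
    (hs : ∀ ε : ℝ, 0 < ε → ∃ s : F, s ≠ 0 ∧ ‖s‖ < ε)
    (V : Set (F × F × F)) (hV : IsOpen V) (z : F × F × F) (hz : z ∈ V) (hzX : z ∈ XS F) :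
    ∃ z' ∈ V, OnU z' := by
  obtain ⟨x, t, y⟩ := z
  obtain ⟨h1, h3⟩ := hzX
  simp only at h1 h3
  by_cases hy : y = 0
  · subst hy
    obtain ⟨ε, hε, hball⟩ := Metric.isOpen_iff.1 hV _ hz
    have h4 : (x ^ 3 - x) * (t ^ 3 - t) = 0 := by
      rw [← h1]
      ring
    rcases h3 with h5 | h5
    · have h6 : t ^ 3 - t = 0 := by
        rcases mul_eq_zero.1 h4 with h | h
        · exact absurd h h5
        · exact h
      obtain ⟨t', y', ht', hy', hy0, heq⟩ := near_one h2 δ hδ hsq hs t x h6 h5 ε hε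
      refine ⟨(x, t', y'), hball ?_, ?_, hy0⟩
      · rw [Metric.mem_ball, Prod.dist_eq, Prod.dist_eq]
        simp only [dist_self, dist_eq_norm, sub_zero]
        exact max_lt hε (max_lt ht' hy')
      · show y' ^ 2 = (x ^ 3 - x) * (t' ^ 3 - t')
        rw [heq]
        ring
    · have h6 : x ^ 3 - x = 0 := by
        rcases mul_eq_zero.1 h4 with h | h
        · exact h
        · exact absurd h h5
      obtain ⟨x', y', hx', hy', hy0, heq⟩ := near_one h2 δ hδ hsq hs x t h6 h5 ε hε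
      refine ⟨(x', t, y'), hball ?_, ?_, hy0⟩
      · rw [Metric.mem_ball, Prod.dist_eq, Prod.dist_eq]
        simp only [dist_self, dist_eq_norm, sub_zero]
        exact max_lt hx' (max_lt hε hy')
      · show y' ^ 2 = (x' ^ 3 - x') * (t ^ 3 - t)
        exact heq
  · exact ⟨(x, t, y), hz, h1, hy⟩

theorem near_U_loc {F : Type} [NormedField F] [Algebra GaussianInt F] {ϖ : GaussianInt}
    (h : IsLoc F ϖ) (h2 : (2 : F) ≠ 0)
    (V : Set (F × F × F)) (hV : IsOpen V) (z : F × F × F) (hz : z ∈ V) (hzX : z ∈ XS F) :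
    ∃ z' ∈ V, OnU z' := by
  have h4 : (4 : F) ≠ 0 := by
    have e : (4 : F) = 2 * 2 := by norm_num
    rw [e]
    exact mul_ne_zero h2 h2
  refine near_U h2 ‖(4 : F)‖ (norm_pos_iff.2 h4) ?_ ?_ V hV z hz hzX
  · intro u hu
    obtain ⟨r, hr, _⟩ := h.sqrt u hu
    exact ⟨r, hr⟩
  · intro ε hε
    obtain ⟨n, hn⟩ := exists_pow_lt_of_lt_one hε ((h.lt_one ϖ).2 (dvd_refl _))
    refine ⟨algebraMap GaussianInt F ϖ ^ n, pow_ne_zero _ (norm_pos_iff.1 h.uni), ?_⟩
    rw [norm_pow]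
    exact hn

theorem near_U_cx (V : Set (ℂ × ℂ × ℂ)) (hV : IsOpen V) (z : ℂ × ℂ × ℂ) (hz : z ∈ V)
    (hzX : z ∈ XS ℂ) : ∃ z' ∈ V, OnU z' := by
  refine near_U two_ne_zero 1 one_pos ?_ ?_ V hV z hz hzX
  · intro u _
    obtain ⟨r, hr⟩ := IsAlgClosed.exists_pow_nat_eq u (n := 2) two_pos
    exact ⟨r, hr⟩
  · intro ε hε
    refine ⟨((ε / 2 : ℝ) : ℂ), ?_, ?_⟩
    · exact_mod_cast (show ε / 2 ≠ 0 by positivity)
    · rw [Complex.norm_real, Real.norm_eq_abs, abs_of_pos (by positivity)]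
      linarith

theorem bfs (hblo : BloStmt) (hbwa : BwaStmt) (hfin : FinStmt) : BfsStmt := by
  intro K _ _ _ σ
  -- the family of the finite places
  have hb := fun v : HeightOneSpectrum GaussianInt => hblo K v
  choose ϖ hϖ hloc using hb
  have hfam : IsFam (fun v : HeightOneSpectrum GaussianInt => v.adicCompletion K) ϖ := by
    refine ⟨hloc, fun v w hvw hass => hvw ?_⟩
    apply HeightOneSpectrum.ext
    rw [hϖ v, hϖ w]
    exact Ideal.span_singleton_eq_span_singleton.2 hass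
  have hcharK : (2 : K) ≠ 0 := by
    intro h0
    have h1 : algebraMap GaussianInt K 2 = 0 := by
      rw [map_ofNat]
      exact h0
    have h3 : (2 : GaussianInt) = 0 := IsFractionRing.injective GaussianInt K (by rw [h1, map_zero])
    exact absurd h3 (by decide)
  have hchar : ∀ v : HeightOneSpectrum GaussianInt, (2 : v.adicCompletion K) ≠ 0 := by
    intro v h0
    apply hcharK
    apply (algebraMap K (v.adicCompletion K)).injective
    rw [map_zero, map_ofNat]
    exact h0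
  -- the complex place
  let _ : Algebra GaussianInt ℂ := (σ.comp (algebraMap GaussianInt K)).toAlgebra
  have hcx : IsCx ℂ := ⟨RingEquiv.refl ℂ, fun _ => rfl⟩
  let σv : ∀ v : HeightOneSpectrum GaussianInt, K →ₐ[GaussianInt] v.adicCompletion K :=
    fun v => { algebraMap K (v.adicCompletion K) with
      commutes' := fun _ => rfl }
  let σC : K →ₐ[GaussianInt] ℂ := { σ with
      commutes' := fun _ => rfl }
  -- density
  rw [DenseRange, dense_iff_inter_open]
  rintro U hU ⟨⟨zf, zc⟩, hz⟩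
  obtain ⟨A, B, hA, hB, hzA, hzB, hAB⟩ := isOpen_prod_iff.1 hU zf zc hz
  obtain ⟨S, V, hV, hVA⟩ := isOpen_pi_iff.1 hA zf hzA
  -- open sets upstairs
  have hV' : ∀ v : HeightOneSpectrum GaussianInt, ∃ O : Set (v.adicCompletion K × v.adicCompletion K ×
      v.adicCompletion K), v ∈ S → IsOpen O ∧ Subtype.val ⁻¹' O = V v := by
    intro v
    by_cases hv : v ∈ S
    · obtain ⟨O, hO, hOV⟩ := isOpen_induced_iff.1 (hV v hv).1
      exact ⟨O, fun _ => ⟨hO, hOV⟩⟩
    · exact ⟨∅, fun h => absurd h hv⟩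
  choose O hO using hV'
  obtain ⟨OC, hOC, hOCB⟩ := isOpen_induced_iff.1 hB
  obtain ⟨z, hzU, hzS, hzC⟩ := hfin (HeightOneSpectrum GaussianInt)
    (fun v => v.adicCompletion K) ϖ ℂ K σv σC hfam hcx S
    (fun T TC hT hTCo hTCn => hbwa K (HeightOneSpectrum GaussianInt)
      (fun v => v.adicCompletion K) ϖ ℂ σv σC S (fun v _ => hloc v)
      (fun v _ w _ hvw => hfam.2 v w hvw) hcx T TC hT hTCo hTCn)
    O OC
    (fun v hv => ⟨(hO v hv).1, near_U_loc (hloc v) (hchar v) (O v) (hO v hv).1 (zf v).1 (by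
      have h1 : zf v ∈ Subtype.val ⁻¹' O v := by
        rw [(hO v hv).2]
        exact (hV v hv).2
      exact h1) (zf v).2⟩)
    hOC (near_U_cx OC hOC zc.1 (by
      have h1 : zc ∈ Subtype.val ⁻¹' OC := by
        rw [hOCB]
        exact hzB
      exact h1) zc.2)
  have hzX : z ∈ XS K := by
    refine ⟨hzU.1, ?_⟩
    left
    intro h0
    apply hzU.2
    have h1 : z.2.2 ^ 2 = (z.1 ^ 3 - z.1) * (z.2.1 ^ 3 - z.2.1) := hzU.1
    rw [h0, zero_mul] at h1
    exact (pow_eq_zero_iff two_ne_zero).1 h1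
  refine ⟨_, hAB ?_, ⟨⟨z, hzX⟩, rfl⟩⟩
  refine Set.mk_mem_prod (hVA ?_) ?_
  · intro v hv
    rw [← (hO v hv).2]
    exact hzS v hv
  · rw [← hOCB]
    exact hzC

end Pool.Agent.WAP.H95
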