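import Mathlib
import Pool.Agent.WAP.StmtsB

/-!
# WAP, row BLO (helper95): the completions of Q(i) are local fields in the sense of IsLoc
-/

set_option autoImplicit false

namespace Pool.Agent.WAP.H95

open Pool.Agent.WAP Classical IsDedekindDomain NumberField

variable (K : Type) [Field K] [Algebra GaussianInt K] [IsFractionRing GaussianInt K]
    (v : HeightOneSpectrum GaussianInt)

theorem algebraMap_eq (a : GaussianInt) : algebraMap GaussianInt (v.adicCompletion K) a =
    FinitePlace.embedding v (algebraMap GaussianInt K a) := rfl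

theorem exists_gen : ∃ ϖ : GaussianInt, v.asIdeal = Ideal.span {ϖ} ∧ Prime ϖ := by
  obtain ⟨ϖ, hϖ⟩ := (IsPrincipalIdealRing.principal v.asIdeal).principal
  have h1 : v.asIdeal = Ideal.span {ϖ} := hϖ
  have h0 : ϖ ≠ 0 := by
    rintro rfl
    apply v.ne_bot
    rw [h1]
    simp
  refine ⟨ϖ, h1, ?_⟩
  rw [← Ideal.span_singleton_prime h0, ← h1]
  exact v.isPrime

/-- square roots near 1 -/
theorem sqrt_aux {F : Type} [NormedField F] [CompleteSpace F]
    (hu : ∀ x y : F, ‖x + y‖ ≤ max ‖x‖ ‖y‖) (a : F) (ha : ‖a‖ < 1) :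
    ∃ s : F, s + s ^ 2 = a ∧ ‖s‖ ≤ ‖a‖ := by
  have hball : IsComplete (Metric.closedBall (0 : F) ‖a‖) :=
    Metric.isClosed_closedBall.isComplete
  set g : F → F := fun s => a - s ^ 2 with hg
  have hmaps : Set.MapsTo g (Metric.closedBall (0 : F) ‖a‖) (Metric.closedBall (0 : F) ‖a‖) := by
    intro s hs
    rw [mem_closedBall_zero_iff] at hs ⊢
    have h1 : ‖a - s ^ 2‖ ≤ max ‖a‖ ‖s ^ 2‖ := by
      have := hu a (-(s ^ 2))
      rw [norm_neg] at this
      rw [sub_eq_add_neg]
      exact this
    have h2 : ‖s ^ 2‖ ≤ ‖a‖ := by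
      rw [norm_pow]
      have h0 := norm_nonneg s
      have h3 := norm_nonneg a
      nlinarith
    exact h1.trans (max_le le_rfl h2)
  have hK : ContractingWith ⟨‖a‖, norm_nonneg a⟩ (hmaps.restrict g _ _) := by
    refine ⟨by exact_mod_cast ha, ?_⟩
    apply LipschitzWith.of_dist_le_mul
    rintro ⟨s, hs⟩ ⟨t, ht⟩
    rw [mem_closedBall_zero_iff] at hs ht
    show dist (a - s ^ 2) (a - t ^ 2) ≤ ‖a‖ * dist s t
    rw [dist_eq_norm, dist_eq_norm]
    have e : a - s ^ 2 - (a - t ^ 2) = -((s + t) * (s - t)) := by ring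
    rw [e, norm_neg, norm_mul]
    apply mul_le_mul_of_nonneg_right _ (norm_nonneg _)
    exact (hu s t).trans (max_le hs ht)
  have h0 : (0 : F) ∈ Metric.closedBall (0 : F) ‖a‖ := by simp
  obtain ⟨s, hs, hfix, _⟩ := hK.exists_fixedPoint' hball hmaps h0 (edist_ne_top _ _)
  refine ⟨s, ?_, ?_⟩
  · have h1 : a - s ^ 2 = s := hfix
    linear_combination -h1
  · rwa [mem_closedBall_zero_iff] at hs


theorem exp_neg_one (ϖ : GaussianInt) (h : v.asIdeal = Ideal.span {ϖ}) (hp : Prime ϖ) :
    Valued.v (algebraMap GaussianInt (v.adicCompletion K) ϖ) = WithZero.exp (-1 : ℤ) := by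
  have h1 := v.intValuation_singleton hp.ne_zero h
  have h2 : Valued.v (algebraMap GaussianInt (v.adicCompletion K) ϖ) =
      v.valuation K (algebraMap GaussianInt K ϖ) :=
    HeightOneSpectrum.valuedAdicCompletion_eq_valuation' v (algebraMap GaussianInt K ϖ)
  rw [h2, HeightOneSpectrum.valuation_of_algebraMap, h1]

theorem val_aux (ϖ : GaussianInt) (h : v.asIdeal = Ideal.span {ϖ}) (hp : Prime ϖ)
    (x : v.adicCompletion K) (hx : x ≠ 0) :
    ∃ n : ℤ, ‖x‖ = ‖algebraMap GaussianInt (v.adicCompletion K) ϖ‖ ^ n := by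
  have hv0 : Valued.v x ≠ 0 := (Valuation.ne_zero_iff _).2 hx
  have h1 : Valued.v x = WithZero.exp (WithZero.log (Valued.v x)) := (WithZero.exp_log hv0).symm
  set n := WithZero.log (Valued.v x) with hn
  refine ⟨-n, ?_⟩
  have h2 : Valued.v x = (Valued.v (algebraMap GaussianInt (v.adicCompletion K) ϖ)) ^ (-n) := by
    rw [exp_neg_one K v ϖ h hp, h1, ← WithZero.exp_zsmul]
    congr 1
    simp
  rw [FinitePlace.norm_def, FinitePlace.norm_def, h2, map_zpow₀]
  push_cast
  rfl

theorem res_aux (x : v.adicCompletion K) (hx : ‖x‖ ≤ 1) :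
    ∃ a : GaussianInt, ‖x - algebraMap GaussianInt (v.adicCompletion K) a‖ < 1 := by
  have hd := HeightOneSpectrum.denseRange_algebraMap (R := GaussianInt) K v
  obtain ⟨y, hy⟩ := hd.exists_mem_open (Metric.isOpen_ball (x := x) (ε := 1))
    ⟨x, Metric.mem_ball_self one_pos⟩
  rw [mem_ball_iff_norm] at hy
  have hy1 : ‖algebraMap K (v.adicCompletion K) y‖ ≤ 1 := by
    have e : algebraMap K (v.adicCompletion K) y =
        (algebraMap K (v.adicCompletion K) y - x) + x := by ring
    rw [e]
    exact (IsUltrametricDist.norm_add_le_max _ _).trans (max_le hy.le hx)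
  have hy2 : v.valuation K y ≤ 1 := by
    rw [← HeightOneSpectrum.valuedAdicCompletion_eq_valuation' v y]
    exact Valued.toNormedField.norm_le_one_iff.1 hy1
  obtain ⟨a, ha⟩ := HeightOneSpectrum.exists_valuation_sub_lt_of_integer v hy2 1
  refine ⟨a, ?_⟩
  have ha1 : ‖algebraMap K (v.adicCompletion K) (algebraMap GaussianInt K a - y)‖ < 1 := by
    rw [Valued.toNormedField.norm_lt_one_iff]
    refine lt_of_eq_of_lt (HeightOneSpectrum.valuedAdicCompletion_eq_valuation' v _) ?_
    simpa using ha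
  have e : x - algebraMap GaussianInt (v.adicCompletion K) a =
      -(algebraMap K (v.adicCompletion K) y - x) +
        -(algebraMap K (v.adicCompletion K) (algebraMap GaussianInt K a - y)) := by
    rw [map_sub]
    have e2 : algebraMap GaussianInt (v.adicCompletion K) a =
      algebraMap K (v.adicCompletion K) (algebraMap GaussianInt K a) := rfl
    rw [e2]
    ring
  rw [e]
  refine (IsUltrametricDist.norm_add_le_max _ _).trans_lt (max_lt ?_ ?_)
  · rw [norm_neg]
    exact hy
  · rw [norm_neg]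
    exact ha1

theorem blo : BloStmt := by
  intro K _ _ _ v
  obtain ⟨ϖ, h1, hp⟩ := exists_gen v
  refine ⟨ϖ, h1, ?_⟩
  have hult : ∀ x y : v.adicCompletion K, ‖x + y‖ ≤ max ‖x‖ ‖y‖ :=
    fun x y => IsUltrametricDist.norm_add_le_max x y
  have hinj : Function.Injective (algebraMap GaussianInt (v.adicCompletion K)) := by
    have e : (algebraMap GaussianInt (v.adicCompletion K) : GaussianInt → v.adicCompletion K) =
      fun a => algebraMap K (v.adicCompletion K) (algebraMap GaussianInt K a) := rfl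
    rw [e]
    exact (algebraMap K (v.adicCompletion K)).injective.comp (IsFractionRing.injective _ _)
  refine ⟨hp, hult, ?_, ?_, res_aux K v, val_aux K v ϖ h1 hp, ?_, inferInstance, ?_⟩
  · intro a
    exact FinitePlace.norm_le_one K v a
  · intro a
    have h2 := FinitePlace.norm_lt_one_iff_mem K v a
    rw [h1, Ideal.mem_span_singleton] at h2
    exact h2
  · rw [norm_pos_iff]
    intro h0
    apply hp.ne_zero
    apply hinj
    rw [h0, map_zero]
  · intro x hx
    have h4 : (4 : v.adicCompletion K) ≠ 0 := by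
      intro h0
      have : (4 : GaussianInt) = 0 := by
        apply hinj
        rw [map_zero, map_ofNat]
        exact h0
      exact absurd this (by decide)
    have h2 : (2 : v.adicCompletion K) ≠ 0 := by
      intro h0
      apply h4
      have e : (4 : v.adicCompletion K) = 2 * 2 := by norm_num
      rw [e, h0, mul_zero]
    have h4n : 0 < ‖(4 : v.adicCompletion K)‖ := norm_pos_iff.2 h4
    have h2n : 0 < ‖(2 : v.adicCompletion K)‖ := norm_pos_iff.2 h2
    have h42 : ‖(4 : v.adicCompletion K)‖ = ‖(2 : v.adicCompletion K)‖ * ‖(2 : v.adicCompletion K)‖ := by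
      rw [← norm_mul]
      norm_num
    set a : v.adicCompletion K := (x - 1) / 4 with ha
    have hxa : x = 1 + 4 * a := by
      rw [ha]
      field_simp
      ring
    have han : ‖a‖ = ‖x - 1‖ / ‖(4 : v.adicCompletion K)‖ := by rw [ha, norm_div]
    have ha1 : ‖a‖ < 1 := by
      rw [han, div_lt_one h4n]
      exact hx
    obtain ⟨s, hs1, hs2⟩ := sqrt_aux hult a ha1
    refine ⟨1 + 2 * s, ?_, ?_⟩
    · rw [hxa]
      linear_combination 4 * hs1
    · have e : 1 + 2 * s - 1 = 2 * s := by ring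
      rw [e, norm_mul]
      calc ‖(2 : v.adicCompletion K)‖ * ‖s‖ * ‖(2 : v.adicCompletion K)‖
          = ‖(4 : v.adicCompletion K)‖ * ‖s‖ := by rw [h42]; ring
        _ ≤ ‖(4 : v.adicCompletion K)‖ * ‖a‖ := mul_le_mul_of_nonneg_left hs2 h4n.le
        _ = ‖x - 1‖ := by rw [han]; field_simp

end Pool.Agent.WAP.H95
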