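import Mathlib
import Pool.Agent.WAP.StmtsB

/-!
# WAP, row BWA (helper95): weak approximation in Q(i) at finitely many finite places and the
complex place
-/

set_option autoImplicit false

namespace Pool.Agent.WAP.H95

open Pool.Agent.WAP Classical

section loc
variable {F : Type} [NormedField F] [Algebra GaussianInt F] {ϖ : GaussianInt}

theorem loc_q_lt (h : IsLoc F ϖ) : ‖algebraMap GaussianInt F ϖ‖ < 1 :=
  (h.lt_one ϖ).2 (dvd_refl _)

theorem loc_le_q (h : IsLoc F ϖ) (y : F) (hy : ‖y‖ < 1) : ‖y‖ ≤ ‖algebraMap GaussianInt F ϖ‖ := by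
  by_cases h0 : y = 0
  · rw [h0, norm_zero]
    exact h.uni.le
  · obtain ⟨n, hn⟩ := h.val y h0
    have hq := loc_q_lt h
    have hn1 : 1 ≤ n := by
      by_contra hcon
      push Not at hcon
      have h1 : n ≤ 0 := by omega
      have h2 : 1 ≤ ‖algebraMap GaussianInt F ϖ‖ ^ n :=
        one_le_zpow_of_nonpos₀ h.uni hq.le h1
      rw [← hn] at h2
      exact absurd hy (not_lt.2 h2)
    rw [hn]
    calc ‖algebraMap GaussianInt F ϖ‖ ^ n ≤ ‖algebraMap GaussianInt F ϖ‖ ^ (1 : ℤ) :=
          zpow_le_zpow_right_of_le_one₀ h.uni hq.le hn1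
      _ = _ := zpow_one _

theorem loc_pi_ne (h : IsLoc F ϖ) : algebraMap GaussianInt F ϖ ≠ 0 := norm_pos_iff.1 h.uni

/-- digits -/
theorem loc_digits (h : IsLoc F ϖ) (x : F) (hx : ‖x‖ ≤ 1) (n : ℕ) :
    ∃ a : GaussianInt, ‖x - algebraMap GaussianInt F a‖ ≤ ‖algebraMap GaussianInt F ϖ‖ ^ n := by
  induction n with
  | zero =>
    refine ⟨0, ?_⟩
    simpa using hx
  | succ n ih =>
    obtain ⟨a, ha⟩ := ih
    set p := algebraMap GaussianInt F ϖ with hp
    have hp0 : p ≠ 0 := loc_pi_ne h
    have hpn : 0 < ‖p‖ ^ n := pow_pos h.uni n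
    have h1 : ‖(x - algebraMap GaussianInt F a) / p ^ n‖ ≤ 1 := by
      rw [norm_div, norm_pow, div_le_one hpn]
      exact ha
    obtain ⟨b, hb⟩ := h.res _ h1
    have hb' := loc_le_q h _ hb
    refine ⟨a + b * ϖ ^ n, ?_⟩
    have e : x - algebraMap GaussianInt F (a + b * ϖ ^ n) =
        ((x - algebraMap GaussianInt F a) / p ^ n - algebraMap GaussianInt F b) * p ^ n := by
      rw [map_add, map_mul, map_pow, ← hp]
      field_simp
      ring
    rw [e, norm_mul, norm_pow, pow_succ, mul_comm (‖p‖ ^ n)]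
    exact mul_le_mul_of_nonneg_right hb' hpn.le

theorem loc_ne_zero (h : IsLoc F ϖ) {a : GaussianInt} (ha : a ≠ 0) :
    algebraMap GaussianInt F a ≠ 0 := by
  intro h0
  -- all powers of ϖ divide a
  have hdvd : ∀ n : ℕ, ϖ ^ n ∣ a := by
    intro n
    induction n with
    | zero => simp
    | succ n ih =>
      obtain ⟨b, hb⟩ := ih
      have h1 : algebraMap GaussianInt F b = 0 := by
        rw [hb, map_mul, map_pow] at h0
        rcases mul_eq_zero.1 h0 with h2 | h2
        · exact absurd h2 (pow_ne_zero n (loc_pi_ne h))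
        · exact h2
      have h3 : ϖ ∣ b := by
        rw [← h.lt_one, h1, norm_zero]
        exact one_pos
      obtain ⟨d, hd⟩ := h3
      refine ⟨d, ?_⟩
      rw [hb, hd]
      ring
  have hfin : FiniteMultiplicity ϖ a :=
    FiniteMultiplicity.of_prime_left h.prime ha
  obtain ⟨n, hn⟩ := hfin
  exact hn (hdvd _)

/-- `K` is dense in `F` -/
theorem loc_dense (h : IsLoc F ϖ) {K : Type} [Field K] [Algebra GaussianInt K]
    (σ : K →ₐ[GaussianInt] F) (x : F) (ε : ℝ) (hε : 0 < ε) : ∃ t : K, ‖x - σ t‖ < ε := by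
  set p := algebraMap GaussianInt F ϖ with hp
  have hp0 : p ≠ 0 := loc_pi_ne h
  have hq := loc_q_lt h
  -- make x integral
  obtain ⟨n, hn⟩ : ∃ n : ℕ, ‖p ^ n * x‖ ≤ 1 := by
    obtain ⟨n, hn⟩ := exists_pow_lt_of_lt_one (show (0 : ℝ) < 1 / (‖x‖ + 1) by positivity) hq
    refine ⟨n, ?_⟩
    rw [norm_mul, norm_pow]
    have h1 : ‖p‖ ^ n * ‖x‖ ≤ 1 / (‖x‖ + 1) * ‖x‖ :=
      mul_le_mul_of_nonneg_right hn.le (norm_nonneg _)
    refine h1.trans ?_
    rw [one_div_mul_eq_div, div_le_one (by positivity)]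
    linarith
  have hpn : 0 < ‖p‖ ^ n := pow_pos h.uni n
  obtain ⟨m, hm⟩ := exists_pow_lt_of_lt_one (show (0 : ℝ) < ε * ‖p‖ ^ n by positivity) hq
  obtain ⟨a, ha⟩ := loc_digits h _ hn m
  refine ⟨algebraMap GaussianInt K a / algebraMap GaussianInt K ϖ ^ n, ?_⟩
  have e : x - σ (algebraMap GaussianInt K a / algebraMap GaussianInt K ϖ ^ n) =
      (p ^ n * x - algebraMap GaussianInt F a) / p ^ n := by
    rw [map_div₀, map_pow, AlgHom.commutes, AlgHom.commutes, ← hp]
    field_simp
  rw [e, norm_div, norm_pow, div_lt_iff₀ hpn]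
  exact ha.trans_lt hm

end loc

section cx
variable {C : Type} [NormedField C] [Algebra GaussianInt C]

/-- every complex number is at distance at most one from a Gaussian integer -/
theorem cx_near (h : IsCx C) (w : C) : ∃ b : GaussianInt, ‖w - algebraMap GaussianInt C b‖ ≤ 1 := by
  obtain ⟨φ, hφ⟩ := h
  set j : ℂ := φ (algebraMap GaussianInt C ⟨0, 1⟩) with hj
  have hj2 : j * j = -1 := by
    rw [hj, ← map_mul, ← map_mul]
    have e : (⟨0, 1⟩ : GaussianInt) * ⟨0, 1⟩ = -1 := by decide
    rw [e, map_neg, map_one, map_neg, map_one]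
  have hjI : j = Complex.I ∨ j = -Complex.I := by
    have h1 : (j - Complex.I) * (j + Complex.I) = 0 := by
      have := Complex.I_mul_I
      linear_combination hj2 - this
    rcases mul_eq_zero.1 h1 with h2 | h2
    · left
      linear_combination h2
    · right
      linear_combination h2
  have himg : ∀ b : GaussianInt, φ (algebraMap GaussianInt C b) = (b.re : ℂ) + b.im * j := by
    intro b
    have e : b = (b.re : GaussianInt) + (b.im : GaussianInt) * ⟨0, 1⟩ := by
      ext <;> simp
    conv_lhs => rw [e]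
    rw [map_add, map_mul, map_add, map_mul, ← hj, map_intCast, map_intCast, map_intCast,
      map_intCast]
  set x := (φ w).re with hx
  set y := (φ w).im with hy
  have hw : φ w = (x : ℂ) + y * Complex.I := (Complex.re_add_im _).symm
  have hrx := abs_sub_round x
  have hry := abs_sub_round y
  have hfin : ∀ z : ℂ, z = ((x - round x : ℝ) : ℂ) + ((y - round y : ℝ) : ℂ) * Complex.I →
      ‖z‖ ≤ 1 := by
    rintro z rfl
    refine (norm_add_le _ _).trans ?_
    rw [norm_mul, Complex.norm_I, mul_one, Complex.norm_real, Complex.norm_real, Real.norm_eq_abs,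
      Real.norm_eq_abs]
    linarith
  rcases hjI with h1 | h1
  · refine ⟨⟨round x, round y⟩, ?_⟩
    rw [← hφ, map_sub, himg, hw, h1]
    apply hfin
    push_cast
    ring
  · refine ⟨⟨round x, -round y⟩, ?_⟩
    rw [← hφ, map_sub, himg, hw, h1]
    apply hfin
    push_cast
    ring

theorem cx_norm_int (h : IsCx C) (n : ℤ) : ‖algebraMap GaussianInt C (n : GaussianInt)‖ = |(n : ℝ)| := by
  obtain ⟨φ, hφ⟩ := h
  rw [← hφ, map_intCast, map_intCast, Complex.norm_intCast]

theorem cx_ne_zero (h : IsCx C) {a : GaussianInt} (ha : a ≠ 0) :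
    algebraMap GaussianInt C a ≠ 0 := by
  intro h0
  have h1 : algebraMap GaussianInt C (a * star a) = 0 := by rw [map_mul, h0, zero_mul]
  have h2 : a * star a = (a.norm : GaussianInt) := by
    rw [Zsqrtd.norm_eq_mul_conj]
  rw [h2] at h1
  have h3 := cx_norm_int h a.norm
  rw [h1, norm_zero] at h3
  have h4 : (a.norm : ℝ) = 0 := abs_eq_zero.1 h3.symm
  have h5 : a.norm = 0 := by exact_mod_cast h4
  exact ha (GaussianInt.norm_eq_zero.1 h5)

end cx

theorem bwa (hcrt : CrtStmt) : BwaStmt := by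
  intro K _ _ _ ι F _ _ ϖ C _ _ σ τ S hloc hfam hcx T T' hT hT'o hT'n
  -- approximations
  have hchoose : ∀ v : ι, ∃ (t : K) (δ : ℝ), 0 < δ ∧ (v ∈ S → ∀ y : F v, ‖y - σ v t‖ < δ → y ∈ T v) := by
    intro v
    by_cases hv : v ∈ S
    · obtain ⟨ho, x, hx⟩ := hT v hv
      obtain ⟨ε, hε, hball⟩ := Metric.isOpen_iff.1 ho x hx
      obtain ⟨t, ht⟩ := loc_dense (hloc v hv) (σ v) x ε hε
      have htT : σ v t ∈ T v := by
        apply hball
        rw [mem_ball_iff_norm, ← norm_neg, neg_sub]
        exact ht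
      obtain ⟨δ, hδ, hball2⟩ := Metric.isOpen_iff.1 ho _ htT
      refine ⟨t, δ, hδ, fun _ y hy => hball2 ?_⟩
      rw [mem_ball_iff_norm]
      exact hy
    · exact ⟨0, 1, one_pos, fun h => absurd h hv⟩
  choose t δ hδ hTt using hchoose
  -- common denominator
  obtain ⟨D, hD⟩ := IsLocalization.exist_integer_multiples (nonZeroDivisors GaussianInt) S t
  have hD0 : (D : GaussianInt) ≠ 0 := nonZeroDivisors.ne_zero D.2
  have hDK : algebraMap GaussianInt K (D : GaussianInt) ≠ 0 := by
    intro h0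
    exact hD0 (IsFractionRing.injective GaussianInt K (by rw [h0, map_zero]))
  have hD' : ∀ v : ι, ∃ a : GaussianInt, v ∈ S →
      algebraMap GaussianInt K a = algebraMap GaussianInt K (D : GaussianInt) * t v := by
    intro v
    by_cases hv : v ∈ S
    · obtain ⟨a, ha⟩ := hD v hv
      refine ⟨a, fun _ => ?_⟩
      rw [ha]
      exact Algebra.smul_def _ _
    · exact ⟨0, fun h => absurd h hv⟩
  choose a ha using hD'
  -- exponents
  have hN : ∀ v : ι, ∃ N : ℕ, v ∈ S → ‖algebraMap GaussianInt (F v) (ϖ v)‖ ^ N <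
      δ v * ‖algebraMap GaussianInt (F v) (D : GaussianInt)‖ := by
    intro v
    by_cases hv : v ∈ S
    · have h1 : 0 < ‖algebraMap GaussianInt (F v) (D : GaussianInt)‖ :=
        norm_pos_iff.2 (loc_ne_zero (hloc v hv) hD0)
      obtain ⟨N, hN⟩ := exists_pow_lt_of_lt_one (mul_pos (hδ v) h1) (loc_q_lt (hloc v hv))
      exact ⟨N, fun _ => hN⟩
    · exact ⟨0, fun h => absurd h hv⟩
  choose N hN using hN
  obtain ⟨k, hk⟩ := hcrt ι ϖ S N a (fun v hv => (hloc v hv).prime) hfam
  -- the modulus and the denominator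
  set M : GaussianInt := ∏ v ∈ S, ϖ v ^ N v with hM
  set P : GaussianInt := ∏ v ∈ S, ϖ v with hP
  have hP0 : P ≠ 0 := Finset.prod_ne_zero_iff.2 fun v hv => (hloc v hv).prime.ne_zero
  set c : GaussianInt := ((1 + P.norm : ℤ) : GaussianInt) with hc
  have hnormP : 1 ≤ P.norm := by
    have := GaussianInt.norm_pos.2 hP0
    omega
  have hcv : ∀ v ∈ S, ‖algebraMap GaussianInt (F v) c‖ = 1 := by
    intro v hv
    have h1 := (hloc v hv).int c
    refine le_antisymm h1 (not_lt.1 fun h2 => ?_)
    have h3 : ϖ v ∣ c := ((hloc v hv).lt_one c).1 h2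
    have h4 : ϖ v ∣ P := Finset.dvd_prod_of_mem _ hv
    have h5 : (P.norm : GaussianInt) = P * star P := Zsqrtd.norm_eq_mul_conj P
    have h6 : ϖ v ∣ (P.norm : GaussianInt) := by
      rw [h5]
      exact h4.mul_right _
    have h7 : ϖ v ∣ 1 := by
      have e : (1 : GaussianInt) = c - (P.norm : GaussianInt) := by
        rw [hc]
        push_cast
        ring
      rw [e]
      exact dvd_sub h3 h6
    exact (hloc v hv).prime.not_isUnit (isUnit_of_dvd_one h7)
  have hc0 : c ≠ 0 := by
    intro h0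
    have h1 := cx_norm_int hcx (1 + P.norm)
    rw [← hc, h0, map_zero, norm_zero] at h1
    have h2 : ((1 + P.norm : ℤ) : ℝ) = 0 := abs_eq_zero.1 h1.symm
    have h3 : (1 + P.norm : ℤ) = 0 := by exact_mod_cast h2
    omega
  have hcK : algebraMap GaussianInt K c ≠ 0 := by
    intro h0
    exact hc0 (IsFractionRing.injective GaussianInt K (by rw [h0, map_zero]))
  -- the finite places
  have hfinite : ∀ (b : GaussianInt) (n : ℕ), ∀ v ∈ S,
      σ v ((algebraMap GaussianInt K k + algebraMap GaussianInt K (M * b) /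
        algebraMap GaussianInt K c ^ n) / algebraMap GaussianInt K (D : GaussianInt)) ∈ T v := by
    intro b n v hv
    apply hTt v hv
    have hl := hloc v hv
    have hDv : algebraMap GaussianInt (F v) (D : GaussianInt) ≠ 0 := loc_ne_zero hl hD0
    have hcv0 : algebraMap GaussianInt (F v) c ≠ 0 := loc_ne_zero hl hc0
    have e1 : σ v (t v) = algebraMap GaussianInt (F v) (a v) /
        algebraMap GaussianInt (F v) (D : GaussianInt) := by
      have h1 := congrArg (σ v) (ha v hv)
      rw [map_mul, AlgHom.commutes, AlgHom.commutes] at h1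
      rw [h1, mul_div_cancel_left₀ _ hDv]
    have e2 : σ v ((algebraMap GaussianInt K k + algebraMap GaussianInt K (M * b) /
        algebraMap GaussianInt K c ^ n) / algebraMap GaussianInt K (D : GaussianInt)) -
        σ v (t v) = (algebraMap GaussianInt (F v) (k - a v) +
          algebraMap GaussianInt (F v) (M * b) / algebraMap GaussianInt (F v) c ^ n) /
          algebraMap GaussianInt (F v) (D : GaussianInt) := by
      rw [e1, map_div₀, map_add, map_div₀, map_pow, AlgHom.commutes, AlgHom.commutes,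
        AlgHom.commutes, AlgHom.commutes, map_sub]
      field_simp
      ring
    rw [e2, norm_div, div_lt_iff₀ (norm_pos_iff.2 hDv)]
    refine lt_of_le_of_lt ?_ (hN v hv)
    have hdiv : ∀ x : GaussianInt, ϖ v ^ N v ∣ x → ‖algebraMap GaussianInt (F v) x‖ ≤
        ‖algebraMap GaussianInt (F v) (ϖ v)‖ ^ N v := by
      rintro x ⟨y, rfl⟩
      rw [map_mul, map_pow, norm_mul, norm_pow]
      exact mul_le_of_le_one_right (pow_nonneg (norm_nonneg _) _) (hl.int y)
    refine (hl.ultra _ _).trans (max_le (hdiv _ (hk v hv)) ?_)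
    rw [norm_div, norm_pow, hcv v hv, one_pow, div_one]
    apply hdiv
    exact (Finset.dvd_prod_of_mem (fun w => ϖ w ^ N w) hv).mul_right b
  -- the complex place
  obtain ⟨z, hz⟩ := hT'n
  obtain ⟨ε, hε, hball⟩ := Metric.isOpen_iff.1 hT'o z hz
  have hM0 : M ≠ 0 := Finset.prod_ne_zero_iff.2 fun v hv =>
    pow_ne_zero _ (hloc v hv).prime.ne_zero
  have hDC : algebraMap GaussianInt C (D : GaussianInt) ≠ 0 := cx_ne_zero hcx hD0
  have hMC : algebraMap GaussianInt C M ≠ 0 := cx_ne_zero hcx hM0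
  have hcC : algebraMap GaussianInt C c ≠ 0 := cx_ne_zero hcx hc0
  have hcn : 1 < ‖algebraMap GaussianInt C c‖ := by
    rw [hc, cx_norm_int hcx]
    have h1 : (1 : ℝ) ≤ (P.norm : ℝ) := by exact_mod_cast hnormP
    push_cast
    rw [abs_of_pos (by linarith)]
    linarith
  set A : ℝ := ‖algebraMap GaussianInt C M / algebraMap GaussianInt C (D : GaussianInt)‖ with hA
  have hApos : 0 < A := norm_pos_iff.2 (div_ne_zero hMC hDC)
  obtain ⟨n, hn⟩ := pow_unbounded_of_one_lt (A / ε) hcn
  -- the target for b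
  obtain ⟨b, hb⟩ := cx_near hcx ((z * algebraMap GaussianInt C (D : GaussianInt) -
    algebraMap GaussianInt C k) * algebraMap GaussianInt C c ^ n / algebraMap GaussianInt C M)
  refine ⟨_, hfinite b n, hball ?_⟩
  rw [mem_ball_iff_norm, ← norm_neg, neg_sub]
  have e : z - τ ((algebraMap GaussianInt K k + algebraMap GaussianInt K (M * b) /
        algebraMap GaussianInt K c ^ n) / algebraMap GaussianInt K (D : GaussianInt)) =
      ((z * algebraMap GaussianInt C (D : GaussianInt) -
        algebraMap GaussianInt C k) * algebraMap GaussianInt C c ^ n / algebraMap GaussianInt C M -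
          algebraMap GaussianInt C b) *
        (algebraMap GaussianInt C M / algebraMap GaussianInt C (D : GaussianInt)) /
          algebraMap GaussianInt C c ^ n := by
    rw [map_div₀, map_add, map_div₀, map_pow, AlgHom.commutes, AlgHom.commutes,
      AlgHom.commutes, AlgHom.commutes, map_mul]
    field_simp
    ring
  rw [e, norm_div, norm_mul, norm_pow, div_lt_iff₀ (pow_pos (by linarith) n), ← hA]
  have h1 : A < ε * ‖algebraMap GaussianInt C c‖ ^ n := by
    rw [div_lt_iff₀ hε] at hn
    linarith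
  refine lt_of_le_of_lt ?_ h1
  exact mul_le_of_le_one_left hApos.le hb

end Pool.Agent.WAP.H95
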