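import Mathlib
import Pool.Agent.WAP.StmtsC
import Pool.Agent.WAP.Alg

/-!
# WAP, row CGR (helper95): greedy algorithm near the point at infinity
-/

set_option autoImplicit false

namespace Pool.Agent.WAP.H95

open Pool.Agent.WAP Pool.Agent.WAP.C Pool.Agent.WAP.G Classical

section basic

variable {F : Type} [NormedField F]

theorem cX_negP {d : F} (P : Pt d) : cX (-P) = cX P := by
  rcases P with _ | ⟨X, Y, h⟩
  · rfl
  · rfl

theorem nO_neg {r : ℝ} {P : Pt (1 : F)} (h : nO r P) : nO r (-P) := by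
  rcases h with rfl | ⟨h1, h2⟩
  · left
    exact neg_zero
  · right
    refine ⟨by rw [cX_negP]; exact h1, ?_⟩
    have e : cz (-P) = -cz P := zc_neg P
    rw [e, norm_neg]
    exact h2

theorem cX_iPtP [Algebra GaussianInt F] {d : F} (P : Pt d) : cX (iPt P) = -cX P := by
  rcases P with _ | ⟨X, Y, h⟩
  · show (0 : F) = -0
    exact neg_zero.symm
  · rfl

theorem norm_iiF [Algebra GaussianInt F]
    (hn : ∀ a : GaussianInt, ‖algebraMap GaussianInt F a‖ ^ 2 = (a.norm : ℝ)) : ‖ii F‖ = 1 := by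
  have h := hn ⟨0, 1⟩
  have e : (Zsqrtd.norm (⟨0, 1⟩ : GaussianInt) : ℝ) = 1 := by
    simp [Zsqrtd.norm_def]
  rw [e] at h
  have h' : ‖ii F‖ ^ 2 = 1 := h
  nlinarith [norm_nonneg (ii F)]

theorem nO_iPt [Algebra GaussianInt F] (hi : ‖ii F‖ = 1) {r : ℝ} {P : Pt (1 : F)} (h : nO r P) :
    nO r (iPt P) := by
  rcases h with rfl | ⟨h1, h2⟩
  · left
    exact iPt_zero
  · right
    refine ⟨by rw [cX_iPtP, norm_neg]; exact h1, ?_⟩
    have e : cz (iPt P) = ii F * cz P := zc_iPt P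
    rw [e, norm_mul, hi, one_mul]
    exact h2

/-- multiplication by a unit -/
theorem nO_unit [Algebra GaussianInt F] (hi : ‖ii F‖ = 1) {r : ℝ} {P : Pt (1 : F)} (h : nO r P)
    {c : GaussianInt} (hc : c = 1 ∨ c = -1 ∨ c = ⟨0, 1⟩ ∨ c = ⟨0, -1⟩) :
    nO r (sm c P) ∧ cz (sm c P) = algebraMap GaussianInt F c * cz P := by
  rcases hc with rfl | rfl | rfl | rfl
  · rw [one_sm, map_one, one_mul]
    exact ⟨h, rfl⟩
  · rw [neg_sm, one_sm, map_neg, map_one, neg_one_mul]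
    exact ⟨nO_neg h, zc_neg P⟩
  · rw [i_sm]
    exact ⟨nO_iPt hi h, zc_iPt P⟩
  · have e : (⟨0, -1⟩ : GaussianInt) = -⟨0, 1⟩ := by
      apply Zsqrtd.ext
      · show (0 : ℤ) = -0
        rfl
      · show (-1 : ℤ) = -1
        rfl
    rw [e, neg_sm, i_sm, map_neg]
    refine ⟨nO_neg (nO_iPt hi h), ?_⟩
    have e1 : cz (-iPt P) = -cz (iPt P) := zc_neg _
    have e2 : cz (iPt P) = ii F * cz P := zc_iPt P
    rw [e1, e2, neg_mul]
    rfl

theorem cz_ne_zero {P : Pt (1 : F)} (h : 1 < ‖cX P‖) : cz P ≠ 0 := by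
  rcases P with _ | ⟨X, Y, hP⟩
  · exfalso
    have h' : 1 < ‖(0 : F)‖ := h
    rw [norm_zero] at h'
    linarith
  · have h' : 1 < ‖X‖ := h
    have hX : X ≠ 0 := by
      rintro rfl
      rw [norm_zero] at h'
      linarith
    have heq : Y ^ 2 = X ^ 3 - 1 ^ 2 * X := (W_equation _ _ _).1 hP.1
    have hY : Y ≠ 0 := by
      rintro rfl
      have h1 : X * (X ^ 2 - 1) = 0 := by linear_combination -heq
      rcases mul_eq_zero.1 h1 with h2 | h2
      · exact hX h2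
      · have h3 : ‖X‖ ^ 2 = 1 := by
          rw [← norm_pow, sub_eq_zero.1 h2, norm_one]
        nlinarith
    exact div_ne_zero hX hY

theorem nO_mono {r s : ℝ} {P : Pt (1 : F)} (h : nO r P) (hrs : ‖cz P‖ ≤ s) : nO s P := by
  rcases h with h | ⟨h1, _⟩
  · exact Or.inl h
  · exact Or.inr ⟨h1, hrs⟩

theorem cz_zeroP : cz (0 : Pt (1 : F)) = 0 := zc_zero

/-- a point near infinity with positive parameter -/
theorem nO_self {r : ℝ} {P : Pt (1 : F)} (h : nO r P) : nO ‖cz P‖ P := nO_mono h le_rfl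

end basic

theorem grow {F : Type} [NormedField F] [Algebra GaussianInt F] (zes : ZesStmt) (hF : IsCx F)
    (hn : ∀ a : GaussianInt, ‖algebraMap GaussianInt F a‖ ^ 2 = (a.norm : ℝ)) (e Q : Pt (1 : F))
    (he : nO (1 / 20) e) (he0 : 0 < ‖cz e‖) (hQ : ‖cz Q‖ ≤ 1 / 20) (heQ : ‖cz e‖ ≤ ‖cz Q‖) (n : ℕ) :
    (∃ j : ℕ, nO (1 / 20) (sm (lam ^ j) e) ∧ ‖cz (sm (lam ^ j) e)‖ ≤ ‖cz Q‖ ∧
      7 / 10 * ‖cz Q‖ ≤ ‖cz (sm (lam ^ j) e)‖) ∨
    (nO (1 / 20) (sm (lam ^ n) e) ∧ ‖cz (sm (lam ^ n) e)‖ ≤ ‖cz Q‖ ∧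
      (7 / 5) ^ n * ‖cz e‖ ≤ ‖cz (sm (lam ^ n) e)‖) := by
  have hi : ‖ii F‖ = 1 := norm_iiF hn
  have hlam : ‖1 + ii F‖ ^ 2 = 2 := by
    have h := hn lam
    have e1 : algebraMap GaussianInt F lam = 1 + ii F := by
      have e2 : lam = 1 + ⟨0, 1⟩ := by
        apply Zsqrtd.ext
        · show (1 : ℤ) = 1 + 0
          rfl
        · show (1 : ℤ) = 0 + 1
          rfl
      rw [e2, map_add, map_one]
      rfl
    rw [e1] at h
    rw [h]
    simp [Zsqrtd.norm_def, lam]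
  have hl1 : ‖1 + ii F‖ ≤ 1415 / 1000 := by
    nlinarith [norm_nonneg (1 + ii F)]
  have hl2 : 1414 / 1000 ≤ ‖1 + ii F‖ := by
    nlinarith [norm_nonneg (1 + ii F)]
  induction n with
  | zero =>
    right
    rw [pow_zero, pow_zero, one_sm, one_mul]
    exact ⟨he, heQ, le_rfl⟩
  | succ n ih =>
    rcases ih with h | ⟨h1, h2, h3⟩
    · exact Or.inl h
    · by_cases h4 : 7 / 10 * ‖cz Q‖ ≤ ‖cz (sm (lam ^ n) e)‖
      · exact Or.inl ⟨n, h1, h2, h4⟩
      · right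
        have h4' := not_le.1 h4
        set P := sm (lam ^ n) e with hP
        have hp0 : 0 < ‖cz P‖ := lt_of_lt_of_le (by positivity) h3
        have hstep : sm (lam ^ (n + 1)) e = P + iPt P := by
          rw [pow_succ', mul_sm, lam_sm]
        rw [hstep]
        obtain ⟨hz1, hz2⟩ := zes F hF ‖cz P‖ hp0 (by linarith) P (iPt P) (nO_self h1)
          (nO_iPt hi (nO_self h1))
        have e2 : cz (iPt P) = ii F * cz P := zc_iPt P
        rw [e2] at hz2
        have hz3 : ‖cz (P + iPt P) - (1 + ii F) * cz P‖ ≤ ‖cz P‖ ^ 3 := by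
          have e3 : cz (P + iPt P) - (1 + ii F) * cz P = cz (P + iPt P) - cz P - ii F * cz P := by
            ring
          rw [e3]
          exact hz2
        have hp3 : ‖cz P‖ ^ 3 ≤ ‖cz P‖ * (1 / 400) := by
          have : ‖cz P‖ ^ 2 ≤ 1 / 400 := by nlinarith
          calc ‖cz P‖ ^ 3 = ‖cz P‖ * ‖cz P‖ ^ 2 := by ring
            _ ≤ ‖cz P‖ * (1 / 400) := mul_le_mul_of_nonneg_left this hp0.le
        have hm : ‖(1 + ii F) * cz P‖ = ‖1 + ii F‖ * ‖cz P‖ := norm_mul _ _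
        have hup : ‖cz (P + iPt P)‖ ≤ ‖1 + ii F‖ * ‖cz P‖ + ‖cz P‖ * (1 / 400) := by
          have := norm_sub_norm_le (cz (P + iPt P)) ((1 + ii F) * cz P)
          rw [hm] at this
          linarith
        have hlo : ‖1 + ii F‖ * ‖cz P‖ - ‖cz P‖ * (1 / 400) ≤ ‖cz (P + iPt P)‖ := by
          have := norm_sub_norm_le ((1 + ii F) * cz P) (cz (P + iPt P))
          rw [hm, norm_sub_rev] at this
          linarith
        have hup2 : ‖cz (P + iPt P)‖ ≤ ‖cz Q‖ := by nlinarith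
        have hlo2 : 7 / 5 * ‖cz P‖ ≤ ‖cz (P + iPt P)‖ := by nlinarith
        refine ⟨nO_mono hz1 (hup2.trans hQ), hup2, ?_⟩
        rw [pow_succ']
        nlinarith

theorem cgr (zes : ZesStmt) (cxf : CxfStmt) : CgrStmt := by
  intro F _ _ hF e Q he hne hnQ
  obtain ⟨⟨_, hn⟩, _, _, _, hu⟩ := cxf F hF
  have hi : ‖ii F‖ = 1 := norm_iiF hn
  have hX : 1 < ‖cX e‖ := by
    rcases hne with h | h
    · exact absurd h he
    · exact h.1
  have hz : ‖cz e‖ ≤ 1 / 20 := by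
    rcases hne with h | h
    · exact absurd h he
    · exact h.2
  have hρ : 0 < ‖cz e‖ := norm_pos_iff.2 (cz_ne_zero hX)
  have key : ∀ n : ℕ, ∀ Q : Pt (1 : F), nO (1 / 20) Q → ‖cz Q‖ ≤ ‖cz e‖ * (5 / 4) ^ n →
      ∃ a : GaussianInt, nO ‖cz e‖ (Q - sm a e) := by
    intro n
    induction n with
    | zero =>
      intro Q hQ h
      rw [pow_zero, mul_one] at h
      exact ⟨0, by rw [zero_sm, sub_zero]; exact nO_mono hQ h⟩
    | succ n ih =>
      intro Q hQ h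
      by_cases hsm : ‖cz Q‖ ≤ ‖cz e‖
      · exact ⟨0, by rw [zero_sm, sub_zero]; exact nO_mono hQ hsm⟩
      have hsm' := not_le.1 hsm
      have hQz : ‖cz Q‖ ≤ 1 / 20 := by
        rcases hQ with rfl | h5
        · rw [cz_zeroP, norm_zero]
          norm_num
        · exact h5.2
      have hQ0 : 0 < ‖cz Q‖ := hρ.trans hsm'
      obtain ⟨N, hN⟩ : ∃ N : ℕ, 1 / 20 < (7 / 5 : ℝ) ^ N * ‖cz e‖ := by
        obtain ⟨N, hN⟩ := pow_unbounded_of_one_lt (1 / 20 / ‖cz e‖) (by norm_num : (1 : ℝ) < 7 / 5)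
        exact ⟨N, by rwa [div_lt_iff₀ hρ] at hN⟩
      rcases grow zes hF hn e Q hne hρ hQz hsm'.le N with ⟨j, h1, h2, h3⟩ | ⟨_, h2, h3⟩
      swap
      · exfalso
        linarith
      set P := sm (lam ^ j) e with hP
      obtain ⟨c, hc, hcz⟩ := hu (cz Q) (cz P) (norm_pos_iff.1 hQ0) h2 h3
      obtain ⟨hc1, hc2⟩ := nO_unit hi (nO_mono h1 h2) hc
      obtain ⟨hz1, hz2⟩ := zes F hF ‖cz Q‖ hQ0 (by linarith) Q (-sm c P) (nO_self hQ) (nO_neg hc1)
      have e1 : cz (-sm c P) = -(algebraMap GaussianInt F c * cz P) := by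
        have : cz (-sm c P) = -cz (sm c P) := zc_neg _
        rw [this, hc2]
      rw [e1, ← sub_eq_add_neg] at hz2
      rw [← sub_eq_add_neg] at hz1
      have h3' : ‖cz Q‖ ^ 3 ≤ ‖cz Q‖ * (1 / 400) := by
        have : ‖cz Q‖ ^ 2 ≤ 1 / 400 := by nlinarith
        calc ‖cz Q‖ ^ 3 = ‖cz Q‖ * ‖cz Q‖ ^ 2 := by ring
          _ ≤ ‖cz Q‖ * (1 / 400) := mul_le_mul_of_nonneg_left this hQ0.le
      have h4 : ‖cz (Q - sm c P)‖ ≤ 4 / 5 * ‖cz Q‖ := by
        have e2 : cz (Q - sm c P) = (cz (Q - sm c P) - cz Q - -(algebraMap GaussianInt F c * cz P)) +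
            (cz Q - algebraMap GaussianInt F c * cz P) := by ring
        rw [e2]
        refine (norm_add_le _ _).trans ?_
        nlinarith
      obtain ⟨a, ha⟩ := ih (Q - sm c P) (nO_mono hz1 (by linarith)) (by
        refine h4.trans ?_
        rw [pow_succ] at h
        nlinarith)
      refine ⟨c * lam ^ j + a, ?_⟩
      have e3 : Q - sm (c * lam ^ j + a) e = Q - sm c P - sm a e := by
        rw [add_sm, mul_sm, ← hP]
        abel
      rw [e3]
      exact ha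
  obtain ⟨n, hn'⟩ := pow_unbounded_of_one_lt (1 / ‖cz e‖) (by norm_num : (1 : ℝ) < 5 / 4)
  refine key n Q hnQ ?_
  have hQz : ‖cz Q‖ ≤ 1 / 20 := by
    rcases hnQ with rfl | h5
    · rw [cz_zeroP, norm_zero]
      norm_num
    · exact h5.2
  rw [div_lt_iff₀ hρ] at hn'
  linarith

end Pool.Agent.WAP.H95
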