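import Mathlib
import Pool.Agent.WAP.StmtsP2

/-!
# WAP, row TYO (helper95): types are locally constant
-/

set_option autoImplicit false

namespace Pool.Agent.WAP.H95

open Pool.Agent.WAP Pool.Agent.WAP.P2 Classical

theorem v_near {F : Type} [NormedField F] [Algebra GaussianInt F] {v : F → ℤ} (h : IsV F v)
    (y k : F) (hy : y ≠ 0) (hk : ‖k‖ < ‖y‖) : y + k ≠ 0 ∧ v (y + k) = v y := by
  apply h.add_lt y k hy
  by_cases hk0 : k = 0
  · exact Or.inl hk0
  · exact Or.inr ((h.lt_iff k y hk0 hy).1 hk)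

theorem tyo : TyoStmt := by
  intro F _ _ v h x h0 h1 h2
  have h1' : x - 1 ≠ 0 := sub_ne_zero.2 h1
  have h2' : x + 1 ≠ 0 := by
    intro h3
    exact h2 (eq_neg_of_add_eq_zero_left h3)
  refine ⟨min ‖x‖ (min ‖x - 1‖ ‖x + 1‖), lt_min (norm_pos_iff.2 h0)
    (lt_min (norm_pos_iff.2 h1') (norm_pos_iff.2 h2')), ?_⟩
  intro x1 hx1
  have e0 := v_near h x (x1 - x) h0 (hx1.trans_le (min_le_left _ _))
  have e1 := v_near h (x - 1) (x1 - x) h1'
    (hx1.trans_le ((min_le_right _ _).trans (min_le_left _ _)))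
  have e2 := v_near h (x + 1) (x1 - x) h2'
    (hx1.trans_le ((min_le_right _ _).trans (min_le_right _ _)))
  have a0 : x + (x1 - x) = x1 := by ring
  have a1 : x - 1 + (x1 - x) = x1 - 1 := by ring
  have a2 : x + 1 + (x1 - x) = x1 + 1 := by ring
  rw [a0] at e0
  rw [a1] at e1
  rw [a2] at e2
  refine ⟨e0.1, sub_ne_zero.1 e1.1, ?_, ?_, ?_⟩
  · rintro rfl
    exact e2.1 (by ring)
  · unfold TypA
    rw [e0.2, e1.2]
    constructor
    · rintro ⟨_, _, h3, h4⟩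
      exact ⟨h0, h1, h3, h4⟩
    · rintro ⟨_, _, h3, h4⟩
      exact ⟨e0.1, sub_ne_zero.1 e1.1, h3, h4⟩
  · have c1 : cub x1 = x1 * (x1 - 1) * (x1 + 1) := by
      unfold cub
      ring
    have c2 : cub x = x * (x - 1) * (x + 1) := by
      unfold cub
      ring
    rw [c1, c2, h.mul _ _ (mul_ne_zero e0.1 e1.1) e2.1, h.mul _ _ e0.1 e1.1,
      h.mul _ _ (mul_ne_zero h0 h1') h2', h.mul _ _ h0 h1', e0.2, e1.2, e2.2]

end Pool.Agent.WAP.H95
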